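import Pool.Agent.Helper23.MT.Goals

set_option autoImplicit false

open scoped Classical

namespace Pool.Agent.Helper87.MT

open Pool.Agent.Helper23.MT

/-- not periodic -/
def NP (z : ℤ) : Prop := ∀ k : ℕ, 1 ≤ k → U^[k] z ≠ z

/-- the backward tree up to `X` -/
noncomputable def SS (z : ℤ) (X : ℕ) : Finset ℤ :=
  (Finset.Icc (-(X : ℤ)) X).filter (fun z' => ¬ (7 : ℤ) ∣ z' ∧ ∃ k : ℕ, U^[k] z' = z)

theorem mem_SS {z : ℤ} {X : ℕ} {z' : ℤ} :
    z' ∈ SS z X ↔ |z'| ≤ X ∧ ¬ (7 : ℤ) ∣ z' ∧ ∃ k : ℕ, U^[k] z' = z := by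
  unfold SS
  rw [Finset.mem_filter, Finset.mem_Icc, abs_le]

theorem exists_l0 {z : ℤ} (h : ¬ (7 : ℤ) ∣ z) : ∃ l < 6, (3 ^ l * z) % 7 = 4 := by
  have h1 : z % 7 = 1 ∨ z % 7 = 2 ∨ z % 7 = 3 ∨ z % 7 = 4 ∨ z % 7 = 5 ∨ z % 7 = 6 := by omega
  rcases h1 with h1 | h1 | h1 | h1 | h1 | h1
  · exact ⟨4, by norm_num, by norm_num; omega⟩
  · exact ⟨2, by norm_num, by norm_num; omega⟩
  · exact ⟨3, by norm_num, by norm_num; omega⟩
  · exact ⟨0, by norm_num, by norm_num; omega⟩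
  · exact ⟨5, by norm_num, by norm_num; omega⟩
  · exact ⟨1, by norm_num, by norm_num; omega⟩

theorem pow6 (q : ℕ) : ((3 : ℤ) ^ (6 * q)) % 7 = 1 := by
  have h : (3 : ℤ) ^ (6 * q) ≡ 1 [ZMOD 7] := by
    rw [pow_mul]
    calc ((3 : ℤ) ^ 6) ^ q ≡ 1 ^ q [ZMOD 7] := Int.ModEq.pow q (by decide)
      _ = 1 := one_pow q
  have := h.eq
  simpa using this

theorem exists_zz {z : ℤ} {l : ℕ} (h : (3 ^ l * z) % 7 = 4) (q : ℕ) :
    ∃ y : ℤ, 7 * y = 3 ^ (l + 6 * q + 1) * z + 2 := by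
  have h1 : (3 ^ (l + 6 * q + 1) * z + 2) % 7 = 0 := by
    have h2 : (3 : ℤ) ^ (l + 6 * q + 1) * z + 2 = 3 * (3 ^ (6 * q) * (3 ^ l * z)) + 2 := by
      rw [pow_add, pow_add]; ring
    have h3 : (3 ^ (6 * q) * (3 ^ l * z)) % 7 = 4 := by
      rw [Int.mul_emod, pow6, h]; norm_num
    rw [h2]
    omega
  exact ⟨(3 ^ (l + 6 * q + 1) * z + 2) / 7, by omega⟩

theorem iter_zz {l : ℕ} {z y : ℤ} (h : 7 * y = 3 ^ (l + 1) * z + 2) (i : ℕ) (hi : i ≤ l) :
    U^[i + 1] y = 3 ^ (l - i) * z := by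
  have h1 : 7 * y = 3 ^ (i + 1) * (3 ^ (l - i) * z) + 2 := by
    rw [h, ← mul_assoc, ← pow_add]
    congr 3
    omega
  exact U_iter_block h1

theorem NP_zz {l : ℕ} {z y : ℤ} (hz : NP z) (h : 7 * y = 3 ^ (l + 1) * z + 2) : NP y := by
  intro k hk hy
  have h1 := U_iter_block h
  have h2 : U^[k] z = z := by
    rw [← h1, ← Function.iterate_add_apply, Nat.add_comm, Function.iterate_add_apply, hy]
  exact hz k hk h2

theorem NP_iter {z x : ℤ} (hz : NP z) {a b : ℕ} (ha : U^[a] x = z) (hb : U^[b] x = z) : a = b := by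
  by_contra hne
  rcases lt_or_gt_of_ne hne with h | h
  · obtain ⟨n, rfl⟩ := Nat.exists_eq_add_of_lt h
    apply hz (n + 1) (by omega)
    have : a + n + 1 = (n + 1) + a := by ring
    rw [this, Function.iterate_add_apply, ha] at hb
    exact hb
  · obtain ⟨n, rfl⟩ := Nat.exists_eq_add_of_lt h
    apply hz (n + 1) (by omega)
    have : b + n + 1 = (n + 1) + b := by ring
    rw [this, Function.iterate_add_apply, hb] at ha
    exact ha

theorem disj {l l' : ℕ} {z y y' : ℤ} (hz : NP z) (h : 7 * y = 3 ^ (l + 1) * z + 2)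
    (h' : 7 * y' = 3 ^ (l' + 1) * z + 2) (hl : l < l') {x : ℤ} {k k' : ℕ}
    (hk : U^[k] x = y) (hk' : U^[k'] x = y') : False := by
  have h1 : U^[(l + 1) + k] x = z := by
    rw [Function.iterate_add_apply, hk, U_iter_block h]
  have h2 : U^[(l' + 1) + k'] x = z := by
    rw [Function.iterate_add_apply, hk', U_iter_block h']
  have h3 := NP_iter hz h1 h2
  obtain ⟨n, rfl⟩ := Nat.exists_eq_add_of_lt hl
  have h4 : k = (n + 1) + k' := by omega
  rw [h4, Function.iterate_add_apply, hk'] at hk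
  have h5 := iter_zz h' n (by omega)
  rw [h5] at hk
  have h6 : l + n + 1 - n = l + 1 := by omega
  rw [h6] at hk
  rw [← hk] at h
  have h7 : (3 : ℤ) ^ (l + 1) * z = 3 * (3 ^ l * z) := by ring
  rw [h7] at h
  omega

theorem SS_sub {l : ℕ} {z y : ℤ} (h : 7 * y = 3 ^ (l + 1) * z + 2) (X : ℕ) : SS y X ⊆ SS z X := by
  intro x hx
  rw [mem_SS] at hx ⊢
  obtain ⟨h1, h2, k, hk⟩ := hx
  refine ⟨h1, h2, (l + 1) + k, ?_⟩
  rw [Function.iterate_add_apply, hk, U_iter_block h]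

theorem bad_unique {l : ℕ} {z y y' : ℤ} (h7 : ¬ (7 : ℤ) ∣ z) {q q' : ℕ} (hq' : q' < 7)
    (h : 7 * y = 3 ^ (l + 6 * q + 1) * z + 2) (h' : 7 * y' = 3 ^ (l + 6 * q' + 1) * z + 2)
    (hy : (7 : ℤ) ∣ y) (hy' : (7 : ℤ) ∣ y') (hlt : q < q') : False := by
  obtain ⟨n, rfl⟩ := Nat.exists_eq_add_of_lt hlt
  have h1 : (7 : ℤ) * 7 ∣ 7 * (y' - y) := mul_dvd_mul_left 7 (dvd_sub hy' hy)
  have h2 : 7 * (y' - y) = 3 ^ (l + 6 * q + 1) * z * (3 ^ (6 * (n + 1)) - 1) := by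
    have e : (3 : ℤ) ^ (l + 6 * (q + n + 1) + 1) = 3 ^ (l + 6 * q + 1) * 3 ^ (6 * (n + 1)) := by
      rw [← pow_add]; congr 1; ring
    rw [e] at h'
    linear_combination h' - h
  rw [h2] at h1
  have hc3 : IsCoprime (7 : ℤ) (3 ^ (l + 6 * q + 1)) :=
    IsCoprime.pow_right (by norm_num)
  have hcz : IsCoprime (7 : ℤ) z := by
    rw [Prime.coprime_iff_not_dvd (by norm_num)]
    exact h7
  have hc : IsCoprime ((7 : ℤ) * 7) (3 ^ (l + 6 * q + 1) * z) :=
    (hc3.mul_right hcz).mul_left (hc3.mul_right hcz)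
  have h3 : (7 : ℤ) * 7 ∣ 3 ^ (6 * (n + 1)) - 1 := hc.dvd_of_dvd_mul_left h1
  have hn : n < 6 := by omega
  interval_cases n <;> norm_num at h3

/-! ## Numbers -/

/-- `K_q` -/
noncomputable def KK (q : ℕ) : ℝ := (3 ^ (6 + 6 * q) + 2) / 7

/-- the exponent `1/13` -/
noncomputable def s13 : ℝ := 1 / 13

theorem KK_ge (q : ℕ) : 104 ≤ KK q := by
  unfold KK
  have h1 : (1 : ℝ) ≤ 3 ^ (6 * q) := one_le_pow₀ (by norm_num)
  have h2 : (3 : ℝ) ^ (6 + 6 * q) = 729 * 3 ^ (6 * q) := by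
    rw [pow_add]; norm_num
  rw [h2, le_div_iff₀ (by norm_num)]
  linarith

theorem KK_pos (q : ℕ) : 0 < KK q := lt_of_lt_of_le (by norm_num) (KK_ge q)

theorem KK_mono {q q' : ℕ} (h : q ≤ q') : KK q ≤ KK q' := by
  unfold KK
  have : (3 : ℝ) ^ (6 + 6 * q) ≤ 3 ^ (6 + 6 * q') := pow_le_pow_right₀ (by norm_num) (by omega)
  gcongr

theorem low {K a : ℝ} (hK : 0 < K) (h : a ^ 13 * K ≤ 1) : a ≤ K ^ (-s13) := by
  have hx : 0 < K ^ (-s13) := Real.rpow_pos_of_pos hK _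
  have h1 : (K ^ (-s13)) ^ 13 * K = 1 := by
    rw [← Real.rpow_natCast, ← Real.rpow_mul hK.le]
    have : -s13 * ((13 : ℕ) : ℝ) = -1 := by unfold s13; norm_num
    rw [this, Real.rpow_neg_one, inv_mul_cancel₀ hK.ne']
  by_contra hlt
  push Not at hlt
  have h2 : (K ^ (-s13)) ^ 13 < a ^ 13 := pow_lt_pow_left₀ hlt hx.le (by norm_num)
  have h3 : (K ^ (-s13)) ^ 13 * K < a ^ 13 * K := mul_lt_mul_of_pos_right h2 hK
  linarith

theorem sum_low : 1 ≤ (∑ q ∈ Finset.range 7, KK q ^ (-s13)) - KK 0 ^ (-s13) := by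
  have h1 : (0.4208 : ℝ) ≤ KK 1 ^ (-s13) := low (KK_pos 1) (by unfold KK; norm_num)
  have h2 : (0.2536 : ℝ) ≤ KK 2 ^ (-s13) := low (KK_pos 2) (by unfold KK; norm_num)
  have h3 : (0.1527 : ℝ) ≤ KK 3 ^ (-s13) := low (KK_pos 3) (by unfold KK; norm_num)
  have h4 : (0.0920 : ℝ) ≤ KK 4 ^ (-s13) := low (KK_pos 4) (by unfold KK; norm_num)
  have h5 : (0.0554 : ℝ) ≤ KK 5 ^ (-s13) := low (KK_pos 5) (by unfold KK; norm_num)
  have h6 : (0.0333 : ℝ) ≤ KK 6 ^ (-s13) := low (KK_pos 6) (by unfold KK; norm_num)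
  simp only [Finset.sum_range_succ, Finset.sum_range_zero]
  linarith

theorem sum_good (P : ℕ → Prop) [DecidablePred P] (x : ℕ → ℝ) (hx : ∀ q, 0 ≤ x q) (hx0 : ∀ q, x q ≤ x 0)
    (hbad : ∀ q q', q < 7 → q' < 7 → P q → P q' → q = q') :
    (∑ q ∈ Finset.range 7, x q) - x 0 ≤ ∑ q ∈ (Finset.range 7).filter (fun q => ¬ P q), x q := by
  have h1 := Finset.sum_filter_add_sum_filter_not (Finset.range 7) P x
  have h2 : ∑ q ∈ (Finset.range 7).filter P, x q ≤ x 0 := by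
    have h3 : ((Finset.range 7).filter P).card ≤ 1 := by
      rw [Finset.card_le_one]
      intro a ha b hb
      rw [Finset.mem_filter, Finset.mem_range] at ha hb
      exact hbad a b ha.1 hb.1 ha.2 hb.2
    calc ∑ q ∈ (Finset.range 7).filter P, x q
        ≤ ((Finset.range 7).filter P).card • x 0 :=
          Finset.sum_le_card_nsmul _ _ _ fun q _ => hx0 q
      _ = ((((Finset.range 7).filter P).card : ℕ) : ℝ) * x 0 := nsmul_eq_mul _ _
      _ ≤ 1 * x 0 := mul_le_mul_of_nonneg_right (by exact_mod_cast h3) (hx 0)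
      _ = x 0 := one_mul _
  linarith

theorem abs_zz {l q : ℕ} {z y : ℤ} (hl : l < 6) (hz : z ≠ 0)
    (h : 7 * y = 3 ^ (l + 6 * q + 1) * z + 2) : |(y : ℝ)| ≤ KK q * |(z : ℝ)| := by
  have h1 : (7 : ℝ) * (y : ℝ) = 3 ^ (l + 6 * q + 1) * (z : ℝ) + 2 := by exact_mod_cast h
  have h2 : (1 : ℝ) ≤ |(z : ℝ)| := by
    have : (1 : ℤ) ≤ |z| := Int.one_le_abs hz
    exact_mod_cast this
  have h3 : 7 * |(y : ℝ)| = |(3 : ℝ) ^ (l + 6 * q + 1) * (z : ℝ) + 2| := by
    rw [← h1, abs_mul]; norm_num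
  have h4 : |(3 : ℝ) ^ (l + 6 * q + 1) * (z : ℝ) + 2| ≤ 3 ^ (l + 6 * q + 1) * |(z : ℝ)| + 2 := by
    refine (abs_add_le _ _).trans ?_
    rw [abs_mul, abs_of_pos (show (0 : ℝ) < 3 ^ (l + 6 * q + 1) by positivity)]
    norm_num
  have h5 : (3 : ℝ) ^ (l + 6 * q + 1) ≤ 3 ^ (6 + 6 * q) :=
    pow_le_pow_right₀ (by norm_num) (by omega)
  have h6 : (3 : ℝ) ^ (l + 6 * q + 1) * |(z : ℝ)| ≤ 3 ^ (6 + 6 * q) * |(z : ℝ)| :=
    mul_le_mul_of_nonneg_right h5 (abs_nonneg _)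
  unfold KK
  rw [div_mul_eq_mul_div, le_div_iff₀ (by norm_num)]
  nlinarith

theorem claim (n : ℕ) : ∀ z : ℤ, NP z → ¬ (7 : ℤ) ∣ z → ∀ X : ℕ, |z| ≤ X →
    KK 6 ^ (-s13) * (min ((X : ℝ) / |(z : ℝ)|) (104 ^ n)) ^ s13 ≤ ((SS z X).card : ℝ) := by
  have hs : 0 < s13 := by unfold s13; norm_num
  have hcard : ∀ z : ℤ, ¬ (7 : ℤ) ∣ z → ∀ X : ℕ, |z| ≤ X → (1 : ℝ) ≤ ((SS z X).card : ℝ) := by
    intro z h7 X hX
    have : z ∈ SS z X := by
      rw [mem_SS]
      exact ⟨hX, h7, 0, rfl⟩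
    exact_mod_cast Finset.card_pos.2 ⟨z, this⟩
  have hsmall : ∀ z : ℤ, ¬ (7 : ℤ) ∣ z → ∀ X : ℕ, |z| ≤ X → ∀ m : ℝ, 0 ≤ m → m ≤ KK 6 →
      KK 6 ^ (-s13) * m ^ s13 ≤ ((SS z X).card : ℝ) := by
    intro z h7 X hX m hm0 hm
    refine le_trans ?_ (hcard z h7 X hX)
    have h1 : m ^ s13 ≤ KK 6 ^ s13 := Real.rpow_le_rpow hm0 hm hs.le
    have h2 : 0 < KK 6 ^ (-s13) := Real.rpow_pos_of_pos (KK_pos 6) _
    calc KK 6 ^ (-s13) * m ^ s13 ≤ KK 6 ^ (-s13) * KK 6 ^ s13 := mul_le_mul_of_nonneg_left h1 h2.le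
      _ = 1 := by rw [← Real.rpow_add (KK_pos 6), neg_add_cancel, Real.rpow_zero]
  induction n with
  | zero =>
    intro z _ h7 X hX
    refine hsmall z h7 X hX _ (le_min (by positivity) (by norm_num)) ?_
    refine (min_le_right _ _).trans ?_
    have := KK_ge 6
    norm_num
    linarith
  | succ n ih =>
    intro z hz h7 X hX
    have hz0 : z ≠ 0 := by
      rintro rfl
      exact h7 (dvd_zero 7)
    have hzpos : 0 < |(z : ℝ)| := abs_pos.2 (by exact_mod_cast hz0)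
    set r : ℝ := (X : ℝ) / |(z : ℝ)| with hr
    have hr0 : 0 ≤ r := by positivity
    rcases le_total r (KK 6) with hrK | hrK
    · exact hsmall z h7 X hX _ (le_min hr0 (by positivity)) ((min_le_left _ _).trans hrK)
    · obtain ⟨l, hl, hl4⟩ := exists_l0 h7
      choose zz hzz using exists_zz hl4
      set m : ℝ := min r (104 ^ (n + 1)) with hm
      have hm0 : 0 ≤ m := le_min hr0 (by positivity)
      have hc : 0 < KK 6 ^ (-s13) := Real.rpow_pos_of_pos (KK_pos 6) _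
      let G : Finset ℕ := (Finset.range 7).filter (fun q => ¬ (7 : ℤ) ∣ zz q)
      have hterm : ∀ q ∈ G, KK 6 ^ (-s13) * m ^ s13 * KK q ^ (-s13) ≤
          ((SS (zz q) X).card : ℝ) := by
        intro q hq
        rw [Finset.mem_filter, Finset.mem_range] at hq
        have hab := abs_zz hl hz0 (hzz q)
        have hKq : KK q ≤ KK 6 := KK_mono (by omega)
        have hX' : |zz q| ≤ X := by
          have h1 : |((zz q : ℤ) : ℝ)| ≤ (X : ℝ) := by
            calc |((zz q : ℤ) : ℝ)| ≤ KK q * |(z : ℝ)| := hab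
              _ ≤ r * |(z : ℝ)| := mul_le_mul_of_nonneg_right (hKq.trans hrK) hzpos.le
              _ = X := by rw [hr, div_mul_cancel₀ _ hzpos.ne']
          exact_mod_cast h1
        have h2 := ih (zz q) (NP_zz hz (hzz q)) hq.2 X hX'
        refine le_trans ?_ h2
        rw [mul_assoc]
        refine mul_le_mul_of_nonneg_left ?_ hc.le
        have hzq0 : zz q ≠ 0 := by
          intro h0
          rw [h0] at hq
          exact hq.2 (dvd_zero 7)
        have hzqpos : 0 < |((zz q : ℤ) : ℝ)| := abs_pos.2 (by exact_mod_cast hzq0)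
        have h3 : m / KK q ≤ min ((X : ℝ) / |((zz q : ℤ) : ℝ)|) (104 ^ n) := by
          refine le_min ?_ ?_
          · calc m / KK q ≤ r / KK q := by
                  have := KK_pos q
                  gcongr
                  exact min_le_left _ _
              _ = X / (KK q * |(z : ℝ)|) := by rw [hr, div_div, mul_comm]
              _ ≤ X / |((zz q : ℤ) : ℝ)| := by gcongr
          · rw [div_le_iff₀ (KK_pos q)]
            calc m ≤ 104 ^ (n + 1) := min_le_right _ _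
              _ = 104 ^ n * 104 := pow_succ _ _
              _ ≤ 104 ^ n * KK q := mul_le_mul_of_nonneg_left (KK_ge q) (by positivity)
        have h4 : m ^ s13 * KK q ^ (-s13) = (m / KK q) ^ s13 := by
          rw [Real.div_rpow hm0 (KK_pos q).le, Real.rpow_neg (KK_pos q).le, div_eq_mul_inv]
        rw [h4]
        exact Real.rpow_le_rpow (div_nonneg hm0 (KK_pos q).le) h3 hs.le
      have hsum : KK 6 ^ (-s13) * m ^ s13 ≤ ∑ q ∈ G, ((SS (zz q) X).card : ℝ) := by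
        have h1 := Finset.sum_le_sum hterm
        rw [← Finset.mul_sum] at h1
        refine le_trans ?_ h1
        have h2 : 1 ≤ ∑ q ∈ G, KK q ^ (-s13) := by
          refine sum_low.trans (sum_good (fun q => (7 : ℤ) ∣ zz q) (fun q => KK q ^ (-s13))
            (fun q => (Real.rpow_pos_of_pos (KK_pos q) _).le) (fun q => ?_) ?_)
          · exact Real.rpow_le_rpow_of_nonpos (KK_pos 0) (KK_mono (Nat.zero_le q)) (by linarith)
          · intro q q' hq hq' hb hb'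
            by_contra hne
            rcases lt_or_gt_of_ne hne with h | h
            · exact bad_unique h7 hq' (hzz q) (hzz q') hb hb' h
            · exact bad_unique h7 hq (hzz q') (hzz q) hb' hb h
        have h3 : 0 ≤ KK 6 ^ (-s13) * m ^ s13 := mul_nonneg hc.le (Real.rpow_nonneg hm0 _)
        nlinarith
      refine hsum.trans ?_
      have hunion : (G.biUnion fun q => SS (zz q) X) ⊆ SS z X := by
        intro x hx
        obtain ⟨q, -, hx⟩ := Finset.mem_biUnion.1 hx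
        exact SS_sub (hzz q) X hx
      have hdisj : ∀ q ∈ G, ∀ q' ∈ G, q ≠ q' → Disjoint (SS (zz q) X) (SS (zz q') X) := by
        intro q _ q' _ hne
        rw [Finset.disjoint_left]
        intro x hx hx'
        rw [mem_SS] at hx hx'
        obtain ⟨-, -, k, hk⟩ := hx
        obtain ⟨-, -, k', hk'⟩ := hx'
        rcases lt_or_gt_of_ne hne with h | h
        · exact disj hz (hzz q) (hzz q') (by omega) hk hk'
        · exact disj hz (hzz q') (hzz q) (by omega) hk' hk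
      have hcardU := Finset.card_le_card hunion
      rw [Finset.card_biUnion hdisj] at hcardU
      exact_mod_cast hcardU

theorem gTREE : GTREE := by
  intro z h7 hz
  have hz0 : z ≠ 0 := by
    rintro rfl
    exact h7 (dvd_zero 7)
  have hzpos : 0 < |(z : ℝ)| := abs_pos.2 (by exact_mod_cast hz0)
  have hc : 0 < KK 6 ^ (-s13) := Real.rpow_pos_of_pos (KK_pos 6) _
  refine ⟨KK 6 ^ (-s13) * |(z : ℝ)| ^ (-s13), mul_pos hc (Real.rpow_pos_of_pos hzpos _), ?_⟩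
  intro X hX
  obtain ⟨n, hn⟩ := pow_unbounded_of_one_lt ((X : ℝ) / |(z : ℝ)|) (show (1 : ℝ) < 104 by norm_num)
  have h := claim n z hz h7 X hX
  rw [min_eq_left hn.le, Real.div_rpow (Nat.cast_nonneg X) hzpos.le] at h
  have e : KK 6 ^ (-s13) * |(z : ℝ)| ^ (-s13) * (X : ℝ) ^ ((1 : ℝ) / 13) =
      KK 6 ^ (-s13) * ((X : ℝ) ^ s13 / |(z : ℝ)| ^ s13) := by
    have hs : (1 : ℝ) / 13 = s13 := rfl
    rw [hs, Real.rpow_neg hzpos.le, div_eq_mul_inv]
    generalize (X : ℝ) ^ s13 = u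
    generalize |(z : ℝ)| ^ s13 = v
    ring
  rw [e]
  exact h

end Pool.Agent.Helper87.MT
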